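import Pool.Agent.Run7.h233.ZK.P32

/-!
# A lower bound for the Steklov zeta-invariants through the Fourier coefficients

For a smooth real function `a` on the circle with Fourier coefficients `a_n` (`fc a n`) the zeta
invariant `Z_k(a)` is the sum over all `j` in `ℤ^{2k}` with `j_1 + ... + j_{2k} = 0` of
`N_j a_{j_1} ... a_{j_{2k}}`, where `N_j = ∑_n (|f(n)| - f(n))`,
`f(n) = n (n + j_1) ... (n + j_1 + ... + j_{2k-1})` (`Nj`, `fpoly`, `Zterm`, `Zk`).
We prove, for every `k ≥ 2`, that `Z_k(a) ≥ C_k ∑_{n ≥ 2} n^{2k+1} |a_n|^{2k}` with a constant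
`C_k > 0` which depends on `k` only.

The proof. For a trigonometric polynomial `Z_k(a) = Tr A^{2k} - Tr (A S)^{2k}`, where `A` is the
Hermitian matrix `√|m| √|l| a_{l-m}` on a large box and `S` is the diagonal matrix of signs (P10-P13).
Put `X = A S`, `U = X X* = A²`, `V = X* X = (S A S)²`, `m = (U + V)/2`, `w = (U - V)/2`. By Schur's
triangular form and Jensen's inequality `|Tr X^{2k}| ≤ Tr m^k` (P1, P2, P4, P8), and the convexity of
`Y ↦ Tr Y^k`, in the form of an identity with nonnegative terms, gives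
`Tr A^{2k} - |Tr X^{2k}| ≥ (1/2) ∑ |μ_i|^k`, `μ_i` the eigenvalues of `w` (P5-P9). The matrix `w` is the
off-diagonal part of `A²`; its entries are `√(m n) G(m, n)`, where the second difference of `G` along
the antidiagonals is `2 a_{-m} a_{-n}` (P15, P16). Testing `w` with the vectors of smooth dyadic windows,
modulated by the characters of a grid, one gets the squares of the windowed sums `∑ p(m) a_{-m} z^m` (P17,
P18, P20, P22), and Parseval on the grid gives the bound (P19, P21, P23, P24, P25). Smooth functions are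
reached by truncation of the Fourier series (P26-P32).
-/

set_option autoImplicit false

namespace Pool.Agent.Results.MP_ed7f76_gt.ZetaInvariantLowerBound

open Pool.Agent.Run7.h233.ZK

theorem result : ∀ k : ℕ, 2 ≤ k → ∃ C : ℝ, 0 < C ∧ ∀ a : ℝ → ℝ, ContDiff ℝ (⊤ : ℕ∞) a →
    (∀ θ, a (θ + 2 * Real.pi) = a θ) →
      Summable (fun j => ‖Zterm k (fc a) j‖) ∧ (Zk k (fc a)).im = 0 ∧
      Summable (fun n : ℕ => ((n : ℝ) + 2) ^ (2 * k + 1) * ‖fc a ((n : ℤ) + 2)‖ ^ (2 * k)) ∧
      C * ∑' n : ℕ, ((n : ℝ) + 2) ^ (2 * k + 1) * ‖fc a ((n : ℤ) + 2)‖ ^ (2 * k)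
        ≤ (Zk k (fc a)).re :=
  fun k hk => P32 k hk

end Pool.Agent.Results.MP_ed7f76_gt.ZetaInvariantLowerBound
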